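import Mathlib

set_option autoImplicit false

/-!
Nilpotent two-sided ideals of a subalgebra `U` of an associative algebra `E`, written with the
multiplication of subspaces.
-/

namespace Pool.Agent.Y82.EL

universe u v

variable {F : Type u} [Field F] {E : Type v} [Ring E] [Algebra F E]

/-- `X` is a two-sided ideal of `U`. -/
structure IsId (U : Subalgebra F E) (X : Submodule F E) : Prop where
  le : X ≤ Subalgebra.toSubmodule U
  left : Subalgebra.toSubmodule U * X ≤ X
  right : X * Subalgebra.toSubmodule U ≤ X

lemma one_le_U (U : Subalgebra F E) : (1 : Submodule F E) ≤ Subalgebra.toSubmodule U := by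
  rw [Submodule.one_le]
  exact U.one_mem

lemma U_mul (U : Subalgebra F E) :
    Subalgebra.toSubmodule U * Subalgebra.toSubmodule U = Subalgebra.toSubmodule U :=
  Subalgebra.isIdempotentElem_toSubmodule U

/-- the two-sided ideal generated by `S` -/
def gen (U : Subalgebra F E) (S : Submodule F E) : Submodule F E :=
  Subalgebra.toSubmodule U * S * Subalgebra.toSubmodule U

lemma le_gen (U : Subalgebra F E) (S : Submodule F E) : S ≤ gen U S := by
  have h1 : S = 1 * S * 1 := by rw [one_mul, mul_one]
  calc S = 1 * S * 1 := h1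
    _ ≤ gen U S := by
        unfold gen
        exact mul_le_mul' (mul_le_mul' (one_le_U U) le_rfl) (one_le_U U)

lemma gen_mono {U V : Subalgebra F E} {S T : Submodule F E} (h : U ≤ V) (h' : S ≤ T) :
    gen U S ≤ gen V T := by
  have h1 : Subalgebra.toSubmodule U ≤ Subalgebra.toSubmodule V := h
  unfold gen
  exact mul_le_mul' (mul_le_mul' h1 h') h1

lemma isId_gen {U : Subalgebra F E} {S : Submodule F E} (h : S ≤ Subalgebra.toSubmodule U) :
    IsId U (gen U S) := by
  refine ⟨?_, ?_, ?_⟩
  · unfold gen
    calc _ ≤ Subalgebra.toSubmodule U * Subalgebra.toSubmodule U * Subalgebra.toSubmodule U :=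
          mul_le_mul' (mul_le_mul' le_rfl h) le_rfl
      _ = _ := by rw [U_mul, U_mul]
  · unfold gen
    rw [← mul_assoc, ← mul_assoc, U_mul]
  · unfold gen
    rw [mul_assoc, U_mul]

lemma IsId.pow_le {U : Subalgebra F E} {X : Submodule F E} (h : IsId U X) (n : ℕ) :
    X ^ n ≤ Subalgebra.toSubmodule U := by
  induction n with
  | zero => rw [pow_zero]; exact one_le_U U
  | succ n ih =>
    rw [pow_succ, ← U_mul U]
    exact mul_le_mul' ih h.le

lemma sup_pow_le {U : Subalgebra F E} {X Y : Submodule F E} (hX : IsId U X) (hY : IsId U Y)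
    (n : ℕ) : (X ⊔ Y) ^ (n + 1) ≤ X ^ (n + 1) ⊔ Y := by
  induction n with
  | zero => simp
  | succ n ih =>
    rw [pow_succ]
    refine (mul_le_mul' ih le_rfl).trans ?_
    rw [Submodule.sup_mul, Submodule.mul_sup, Submodule.mul_sup]
    refine sup_le (sup_le ?_ ?_) (sup_le ?_ ?_)
    · rw [← pow_succ]; exact le_sup_left
    · exact le_sup_of_le_right ((mul_le_mul' (hX.pow_le _) le_rfl).trans hY.left)
    · exact le_sup_of_le_right ((mul_le_mul' le_rfl hX.le).trans hY.right)
    · exact le_sup_of_le_right ((mul_le_mul' le_rfl hY.le).trans hY.right)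

lemma isNilpotent_mono {X Y : Submodule F E} (h : X ≤ Y) (hY : IsNilpotent Y) :
    IsNilpotent X := by
  obtain ⟨n, hn⟩ := hY
  refine ⟨n, le_bot_iff.1 ?_⟩
  have : X ^ n ≤ Y ^ n := by
    clear hn
    induction n with
    | zero => simp
    | succ n ih => rw [pow_succ, pow_succ]; exact mul_le_mul' ih h
  rw [hn] at this
  exact this

lemma isNilpotent_of_pow_le {X Y : Submodule F E} (n : ℕ) (h : X ^ n ≤ Y) (hY : IsNilpotent Y) :
    IsNilpotent X := by
  obtain ⟨m, hm⟩ := isNilpotent_mono h hY
  exact ⟨n * m, by rw [pow_mul]; exact hm⟩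

lemma isNilpotent_sup {U : Subalgebra F E} {X Y : Submodule F E} (hX : IsId U X)
    (hY : IsId U Y) (h1 : IsNilpotent X) (h2 : IsNilpotent Y) : IsNilpotent (X ⊔ Y) := by
  obtain ⟨n, hn⟩ := h1
  refine isNilpotent_of_pow_le (n + 1) ?_ h2
  refine (sup_pow_le hX hY n).trans ?_
  rw [pow_succ, hn, zero_mul]
  exact sup_le bot_le le_rfl

lemma gen_sup (U : Subalgebra F E) (S T : Submodule F E) :
    gen U (S ⊔ T) = gen U S ⊔ gen U T := by
  unfold gen
  rw [Submodule.mul_sup, Submodule.sup_mul]

lemma isNilpotent_gen_span [DecidableEq E] {U : Subalgebra F E} (s : Finset E)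
    (hs : ∀ x ∈ s, x ∈ U) (h : ∀ x ∈ s, IsNilpotent (gen U (Submodule.span F {x}))) :
    IsNilpotent (gen U (Submodule.span F (s : Set E))) := by
  induction s using Finset.induction_on with
  | empty =>
    refine ⟨1, ?_⟩
    rw [pow_one, Finset.coe_empty, Submodule.span_empty]
    unfold gen
    rw [Submodule.mul_bot, Submodule.bot_mul]
    rfl
  | insert x s _ ih =>
    rw [Finset.coe_insert, Submodule.span_insert, gen_sup]
    refine isNilpotent_sup (U := U) (isId_gen ?_) (isId_gen ?_) (h x (by simp))
      (ih (fun y hy => hs y (by simp [hy])) fun y hy => h y (by simp [hy]))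
    · rw [Submodule.span_singleton_le_iff_mem]
      exact hs x (by simp)
    · rw [Submodule.span_le]
      intro y hy
      exact hs y (by simp [Finset.mem_coe.1 hy])

/-- if `x` is nilpotent and central modulo a nilpotent ideal, it generates a nilpotent ideal -/
lemma isNilpotent_gen_of_comm {U : Subalgebra F E} {Y : Submodule F E} (hY : IsId U Y)
    (hYn : IsNilpotent Y) {x : E} (hx : x ∈ U) (hxn : IsNilpotent x)
    (h : Subalgebra.toSubmodule U * Submodule.span F {x} ≤
      Submodule.span F {x} * Subalgebra.toSubmodule U ⊔ Y) :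
    IsNilpotent (gen U (Submodule.span F {x})) := by
  obtain ⟨k, hk⟩ := hxn
  have hxU : Submodule.span F {x} ≤ Subalgebra.toSubmodule U := by
    rw [Submodule.span_singleton_le_iff_mem]; exact hx
  have hpU : ∀ n, (Submodule.span F {x}) ^ n ≤ Subalgebra.toSubmodule U := by
    intro n
    induction n with
    | zero => rw [pow_zero]; exact one_le_U U
    | succ n ih =>
      rw [pow_succ, ← U_mul U]
      exact mul_le_mul' ih hxU
  have key : ∀ n, gen U (Submodule.span F {x}) ^ (n + 1) ≤
      Submodule.span F {x} ^ (n + 1) * Subalgebra.toSubmodule U ⊔ Y := by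
    have h1 : gen U (Submodule.span F {x}) ≤
        Submodule.span F {x} * Subalgebra.toSubmodule U ⊔ Y := by
      unfold gen
      refine (mul_le_mul' h le_rfl).trans ?_
      rw [Submodule.sup_mul, mul_assoc, U_mul]
      exact sup_le le_sup_left (le_sup_of_le_right hY.right)
    intro n
    induction n with
    | zero => simpa using h1
    | succ n ih =>
      rw [pow_succ]
      refine (mul_le_mul' ih le_rfl).trans ?_
      rw [Submodule.sup_mul]
      refine sup_le ?_ ?_
      · have h2 : Submodule.span F {x} ^ (n + 1) * Subalgebra.toSubmodule U *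
            gen U (Submodule.span F {x}) ≤
            Submodule.span F {x} ^ (n + 1) * gen U (Submodule.span F {x}) := by
          rw [mul_assoc]
          exact mul_le_mul' le_rfl (isId_gen hxU).left
        refine h2.trans ((mul_le_mul' le_rfl h1).trans ?_)
        rw [Submodule.mul_sup]
        refine sup_le ?_ ?_
        · rw [← mul_assoc, ← pow_succ]; exact le_sup_left
        · exact le_sup_of_le_right ((mul_le_mul' (hpU _) le_rfl).trans hY.left)
      · exact le_sup_of_le_right
          ((mul_le_mul' le_rfl (isId_gen hxU).le).trans hY.right)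
  have h3 : Submodule.span F {x} ^ (k + 1) = ⊥ := by
    rw [Submodule.span_pow, Set.singleton_pow, pow_succ, hk, zero_mul]
    simp
  refine isNilpotent_of_pow_le (k + 1) ((key k).trans ?_) hYn
  rw [h3, Submodule.bot_mul]
  exact sup_le bot_le le_rfl

/-- a subspace `S` with `U S ⊆ S U` all of whose long products vanish generates a nilpotent
ideal -/
lemma isNilpotent_gen_of_normal {U : Subalgebra F E} {S : Submodule F E}
    (hS : IsNilpotent S)
    (h : Subalgebra.toSubmodule U * S ≤ S * Subalgebra.toSubmodule U) :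
    IsNilpotent (gen U S) := by
  obtain ⟨k, hk⟩ := hS
  have h1 : gen U S ≤ S * Subalgebra.toSubmodule U := by
    unfold gen
    refine (mul_le_mul' h le_rfl).trans ?_
    rw [mul_assoc, U_mul]
  have key : ∀ n, (S * Subalgebra.toSubmodule U) ^ n ≤ S ^ n * Subalgebra.toSubmodule U := by
    intro n
    induction n with
    | zero => rw [pow_zero, pow_zero, one_mul]; exact one_le_U U
    | succ n ih =>
      rw [pow_succ]
      refine (mul_le_mul' ih le_rfl).trans ?_
      calc S ^ n * Subalgebra.toSubmodule U * (S * Subalgebra.toSubmodule U)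
          = S ^ n * (Subalgebra.toSubmodule U * S) * Subalgebra.toSubmodule U := by
            simp only [mul_assoc]
        _ ≤ S ^ n * (S * Subalgebra.toSubmodule U) * Subalgebra.toSubmodule U :=
            mul_le_mul' (mul_le_mul' le_rfl h) le_rfl
        _ = S ^ (n + 1) * (Subalgebra.toSubmodule U * Subalgebra.toSubmodule U) := by
            rw [pow_succ]; simp only [mul_assoc]
        _ = _ := by rw [U_mul]
  refine isNilpotent_mono h1 ⟨k, le_bot_iff.1 ((key k).trans ?_)⟩
  rw [hk, zero_mul]
  exact le_rfl

/-! ### the characteristic zero step -/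

section Deriv

variable (D : E →ₗ[F] E) (hD : ∀ x y, D (x * y) = D x * y + x * D y)
include hD

lemma leibniz (n : ℕ) (x y : E) :
    D^[n] (x * y) = ∑ ij ∈ Finset.HasAntidiagonal.antidiagonal n, n.choose ij.1 • (D^[ij.1] x * D^[ij.2] y) := by
  induction n with
  | zero => simp
  | succ n ih =>
    rw [Finset.sum_antidiagonal_choose_succ_nsmul (M := E) (fun i j => D^[i] x * D^[j] y) n]
    simp only [Function.iterate_succ_apply', ih, map_sum, map_nsmul, hD, smul_add,
      Finset.sum_add_distrib]
    rw [add_comm]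
    congr 1
    refine Finset.sum_congr rfl fun ⟨i, j⟩ hij ↦ ?_
    rw [n.choose_symm_of_eq_add (Finset.HasAntidiagonal.mem_antidiagonal.1 hij).symm]

lemma D_one : D 1 = 0 := by
  have := hD 1 1
  rw [mul_one, mul_one, one_mul] at this
  exact left_eq_add.1 this

/-- if `x ^ k = 0` and all the derivatives of `x` of order `> j` lie in the ideal `Y`, then the
`k`-th power of the `j`-th derivative lies in `Y` (characteristic zero) -/
lemma pow_iterate_mem [CharZero F] {U : Subalgebra F E} {Y : Submodule F E} (hY : IsId U Y)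
    {x : E} (hx : ∀ n, D^[n] x ∈ U) (hDU : ∀ y ∈ U, D y ∈ U) (j : ℕ)
    (hj : ∀ n, j < n → D^[n] x ∈ Y) {k : ℕ} (hk : x ^ k = 0) : (D^[j] x) ^ k ∈ Y := by
  have hYl : ∀ y ∈ U, ∀ z ∈ Y, y * z ∈ Y := fun y hy z hz =>
    hY.left (Submodule.mul_mem_mul hy hz)
  have hYr : ∀ y ∈ U, ∀ z ∈ Y, z * y ∈ Y := fun y hy z hz =>
    hY.right (Submodule.mul_mem_mul hz hy)
  have hit : ∀ n, ∀ y ∈ U, D^[n] y ∈ U := by
    intro n
    induction n with
    | zero => intro y hy; exact hy
    | succ n ih => intro y hy; rw [Function.iterate_succ_apply]; exact ih _ (hDU y hy)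
  have hx0 : x ∈ U := hx 0
  have key : ∀ k : ℕ, (∀ n, j * k < n → D^[n] (x ^ k) ∈ Y) ∧
      ∃ c : ℕ, c ≠ 0 ∧ D^[j * k] (x ^ k) - c • (D^[j] x) ^ k ∈ Y := by
    intro k
    induction k with
    | zero =>
      refine ⟨?_, 1, one_ne_zero, ?_⟩
      · intro n hn
        obtain ⟨m, rfl⟩ : ∃ m, n = m + 1 := ⟨n - 1, by omega⟩
        rw [pow_zero, Function.iterate_succ_apply, D_one D hD]
        have : D^[m] (0 : E) = 0 := Function.iterate_fixed (map_zero D) m
        rw [this]
        exact Y.zero_mem
      · simp
    | succ k ih =>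
      obtain ⟨ih1, c, hc, ih2⟩ := ih
      have hxk : x ^ k ∈ U := U.pow_mem hx0 k
      constructor
      · intro n hn
        rw [pow_succ', leibniz D hD]
        refine Submodule.sum_mem _ fun ij hij => ?_
        have hij' := Finset.HasAntidiagonal.mem_antidiagonal.1 hij
        refine Y.smul_of_tower_mem _ ?_
        rcases lt_or_ge j ij.1 with h | h
        · exact hYr _ (hit _ _ hxk) _ (hj _ h)
        · refine hYl _ (hx _) _ (ih1 _ ?_)
          rw [Nat.mul_succ] at hn
          omega
      · refine ⟨(j * (k + 1)).choose j * c, ?_, ?_⟩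
        · refine mul_ne_zero (Nat.choose_pos ?_).ne' hc
          rw [Nat.mul_succ]; omega
        · rw [pow_succ', leibniz D hD]
          have hmem : (j, j * k) ∈ Finset.HasAntidiagonal.antidiagonal (j * (k + 1)) := by
            rw [Finset.HasAntidiagonal.mem_antidiagonal, Nat.mul_succ, add_comm]
          rw [← Finset.add_sum_erase _ _ hmem]
          have e : (j * (k + 1)).choose j • (D^[j] x * D^[j * k] (x ^ k)) +
              ∑ ij ∈ (Finset.HasAntidiagonal.antidiagonal (j * (k + 1))).erase (j, j * k),
                (j * (k + 1)).choose ij.1 • (D^[ij.1] x * D^[ij.2] (x ^ k)) -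
              ((j * (k + 1)).choose j * c) • (D^[j] x) ^ (k + 1) =
              (j * (k + 1)).choose j • (D^[j] x * (D^[j * k] (x ^ k) - c • (D^[j] x) ^ k)) +
              ∑ ij ∈ (Finset.HasAntidiagonal.antidiagonal (j * (k + 1))).erase (j, j * k),
                (j * (k + 1)).choose ij.1 • (D^[ij.1] x * D^[ij.2] (x ^ k)) := by
            rw [mul_sub, smul_sub, mul_smul_comm, mul_smul, pow_succ']
            abel
          rw [e]
          refine Y.add_mem (Y.smul_of_tower_mem _ (hYl _ (hx _) _ ih2)) ?_
          refine Submodule.sum_mem _ fun ij hij => ?_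
          obtain ⟨hne, hij1⟩ := Finset.mem_erase.1 hij
          have hij' := Finset.HasAntidiagonal.mem_antidiagonal.1 hij1
          refine Y.smul_of_tower_mem _ ?_
          rcases lt_or_ge j ij.1 with h | h
          · exact hYr _ (hit _ _ hxk) _ (hj _ h)
          · refine hYl _ (hx _) _ (ih1 _ ?_)
            rw [Nat.mul_succ] at hij'
            by_contra h3
            apply hne
            ext
            · change ij.1 = j; omega
            · change ij.2 = j * k; omega
  obtain ⟨-, c, hc, h⟩ := key k
  rw [hk] at h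
  have h0 : D^[j * k] (0 : E) = 0 := Function.iterate_fixed (map_zero D) _
  rw [h0, zero_sub, Submodule.neg_mem_iff] at h
  have h2 : ((c : F)⁻¹) • (c • (D^[j] x) ^ k) ∈ Y := Y.smul_mem _ h
  rw [← Nat.cast_smul_eq_nsmul F, smul_smul, inv_mul_cancel₀ (Nat.cast_ne_zero.2 hc),
    one_smul] at h2
  exact h2

end Deriv

end Pool.Agent.Y82.EL
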