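import Mathlib
import Pool.Agent.Y82.EL.Sub
import Pool.Agent.Results.MP_2c0ed3_al.EngelRadical

set_option autoImplicit false

/-!
When does `R_a` lie in the locally nilpotent radical of the multiplication algebra of a locally
nilpotent Lie algebra?
-/

open Pool.Agent.Results.MP_2c0ed3_al.EngelRadical

namespace Pool.Agent.Y82.EL

universe u v

variable {F : Type u} [Field F] {A : Type v} [LieRing A] [LieAlgebra F A]

/-! ### Finitely generated nilpotent Lie algebras are finite-dimensional -/

/-- left-normed words -/
noncomputable def W (F : Type u) [Field F] {A : Type v} [LieRing A] [LieAlgebra F A]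
    (s : Finset A) : ℕ → Submodule F A
  | 0 => Submodule.span F (s : Set A)
  | k + 1 => Submodule.map₂ (LieAlgebra.ad F A : A →ₗ[F] Module.End F A) (W F s k)
      (Submodule.span F (s : Set A))

lemma W_fg (s : Finset A) (k : ℕ) : (W F s k).FG := by
  induction k with
  | zero => exact ⟨s, rfl⟩
  | succ k ih => exact Submodule.FG.map₂ _ ih ⟨s, rfl⟩

lemma W_le (s : Finset A) (k : ℕ) :
    W F s k ≤ Submodule.map
      ((LieSubalgebra.lieSpan F A (s : Set A)).incl :
        LieSubalgebra.lieSpan F A (s : Set A) →ₗ[F] A)
      (LieModule.lowerCentralSeries F (LieSubalgebra.lieSpan F A (s : Set A))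
        (LieSubalgebra.lieSpan F A (s : Set A)) k).toSubmodule := by
  induction k with
  | zero =>
    change Submodule.span F (s : Set A) ≤ _
    rw [Submodule.span_le]
    intro x hx
    exact ⟨⟨x, LieSubalgebra.subset_lieSpan hx⟩, by simp, rfl⟩
  | succ k ih =>
    change Submodule.map₂ _ _ _ ≤ _
    rw [Submodule.map₂_le]
    intro x hx y hy
    obtain ⟨x', hx', rfl⟩ := ih hx
    have hy' : y ∈ LieSubalgebra.lieSpan F A (s : Set A) :=
      LieSubalgebra.submodule_span_le_lieSpan hy
    refine ⟨⁅x', (⟨y, hy'⟩ : LieSubalgebra.lieSpan F A (s : Set A))⁆, ?_, rfl⟩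
    rw [← lie_skew]
    refine Submodule.neg_mem _ ?_
    rw [LieModule.lowerCentralSeries_succ]
    exact LieSubmodule.lie_mem_lie (LieSubmodule.mem_top _) hx'

lemma finite_lieSpan (s : Finset A)
    (h : LieRing.IsNilpotent (LieSubalgebra.lieSpan F A (s : Set A))) :
    Module.Finite F (LieSubalgebra.lieSpan F A (s : Set A)) := by
  classical
  obtain ⟨N, hN⟩ := LieModule.IsNilpotent.nilpotent F (LieSubalgebra.lieSpan F A (s : Set A))
    (LieSubalgebra.lieSpan F A (s : Set A))
  have hWN : W F s N = ⊥ := by
    refine le_bot_iff.1 ((W_le s N).trans ?_)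
    rw [hN]
    simp
  set T : Submodule F A := ⨆ k ∈ Finset.range N, W F s k with hT
  have hTfg : T.FG := Submodule.fg_biSup _ _ fun k _ => W_fg s k
  have hWT : ∀ k, W F s k ≤ T := by
    have h0 : ∀ m, W F s (N + m) = ⊥ := by
      intro m
      induction m with
      | zero => exact hWN
      | succ m ih =>
        change Submodule.map₂ _ (W F s (N + m)) _ = _
        rw [ih, Submodule.map₂_bot_left]
    intro k
    rcases lt_or_ge k N with hk | hk
    · exact le_biSup (f := fun k => W F s k) (Finset.mem_range.2 hk)
    · obtain ⟨m, rfl⟩ := Nat.exists_eq_add_of_le hk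
      rw [h0]; exact bot_le
  have hTB : T ≤ (LieSubalgebra.lieSpan F A (s : Set A)).toSubmodule := by
    rw [hT]
    refine iSup₂_le fun k _ => (W_le s k).trans ?_
    rintro _ ⟨x, _, rfl⟩
    exact x.2
  have hcl : ∀ x ∈ s, ∀ w ∈ T, ⁅w, x⁆ ∈ T := by
    intro x hx w hw
    rw [hT] at hw
    induction hw using Submodule.iSup_induction' with
    | mem k w hw =>
      by_cases hk : k ∈ Finset.range N
      · rw [iSup_pos hk] at hw
        exact hWT (k + 1) (Submodule.apply_mem_map₂ _ hw (Submodule.subset_span hx))
      · rw [iSup_neg hk, Submodule.mem_bot] at hw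
        rw [hw, zero_lie]; exact T.zero_mem
    | zero => rw [zero_lie]; exact T.zero_mem
    | add x y _ _ h1 h2 => rw [add_lie]; exact T.add_mem h1 h2
  let K : LieSubalgebra F A :=
    { carrier := {b | ∀ w ∈ T, ⁅w, b⁆ ∈ T}
      add_mem' := fun {x y} hx hy w hw => by
        rw [lie_add]; exact T.add_mem (hx w hw) (hy w hw)
      zero_mem' := fun w _ => by rw [lie_zero]; exact T.zero_mem
      smul_mem' := fun c x hx w hw => by rw [lie_smul]; exact T.smul_mem c (hx w hw)
      lie_mem' := fun {x y} hx hy w hw => by
        rw [leibniz_lie, ← lie_skew x ⁅w, y⁆]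
        exact T.add_mem (hy _ (hx w hw)) (T.neg_mem (hx _ (hy w hw))) }
  have hK : LieSubalgebra.lieSpan F A (s : Set A) ≤ K := by
    rw [LieSubalgebra.lieSpan_le]
    intro x hx
    exact hcl x hx
  let T' : LieSubalgebra F A :=
    { T with lie_mem' := fun {x y} hx hy => hK (hTB hy) x hx }
  have hT' : LieSubalgebra.lieSpan F A (s : Set A) ≤ T' := by
    rw [LieSubalgebra.lieSpan_le]
    intro x hx
    exact hWT 0 (Submodule.subset_span hx)
  have heq : (LieSubalgebra.lieSpan F A (s : Set A)).toSubmodule = T :=
    le_antisymm (fun x hx => hT' hx) hTB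
  have hfin : Module.Finite F (LieSubalgebra.lieSpan F A (s : Set A)).toSubmodule := by
    rw [heq]
    exact Module.Finite.iff_fg.2 hTfg
  exact hfin

/-! ### The associative algebra generated by `R(B)` -/

/-- the unital associative algebra generated by the `R_x`, `x ∈ s` -/
noncomputable def Ua (F : Type u) [Field F] {A : Type v} [LieRing A] [LieAlgebra F A]
    (s : Set A) : Subalgebra F (Module.End F A) :=
  Algebra.adjoin F (R F '' s)

lemma Ua_mono {s t : Set A} (h : s ⊆ t) : Ua F s ≤ Ua F t :=
  Algebra.adjoin_mono (Set.image_mono h)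

lemma R_mem_Ua {s : Set A} {x : A} (hx : x ∈ s) : R F x ∈ Ua F s :=
  Algebra.subset_adjoin ⟨x, hx, rfl⟩

/-- the ideal of `Ua B` generated by `R_c` is nilpotent -/
def Nl (B : LieSubalgebra F A) (c : A) : Prop :=
  IsNilpotent (gen (Ua F (B : Set A)) (Submodule.span F {R F c}))

/-- `R` as a linear map -/
noncomputable def Rl (F : Type u) [Field F] (A : Type v) [LieRing A] [LieAlgebra F A] :
    A →ₗ[F] Module.End F A where
  toFun := R F
  map_add' := R_add
  map_smul' := R_smul

lemma normal_of_gens {B : LieSubalgebra F A} {S Y : Submodule F (Module.End F A)}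
    (hY : IsId (Ua F (B : Set A)) Y)
    (h : ∀ b ∈ B, ∀ x ∈ S, R F b * x ∈ S * Subalgebra.toSubmodule (Ua F (B : Set A)) ⊔ Y) :
    Subalgebra.toSubmodule (Ua F (B : Set A)) * S ≤
      S * Subalgebra.toSubmodule (Ua F (B : Set A)) ⊔ Y := by
  rw [Submodule.mul_le]
  intro u hu
  have hu' : u ∈ Algebra.adjoin F (R F '' (B : Set A)) := hu
  clear hu
  induction hu' using Algebra.adjoin_induction with
  | mem u hu =>
    obtain ⟨b, hb, rfl⟩ := hu
    exact h b hb
  | algebraMap r =>
    intro x hx
    rw [Algebra.algebraMap_eq_smul_one, smul_mul_assoc, one_mul]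
    refine Submodule.smul_mem _ _ (Submodule.mem_sup_left ?_)
    rw [← mul_one x]
    exact Submodule.mul_mem_mul hx (Subalgebra.one_mem _)
  | add u v _ _ hu hv =>
    intro x hx
    rw [add_mul]
    exact Submodule.add_mem _ (hu x hx) (hv x hx)
  | mul u v hu' _ hu hv =>
    intro x hx
    rw [mul_assoc]
    obtain ⟨y, hy, z, hz, hyz⟩ := Submodule.mem_sup.1 (hv x hx)
    rw [← hyz, mul_add]
    refine Submodule.add_mem _ ?_ (Submodule.mem_sup_right
      (hY.left (Submodule.mul_mem_mul hu' hz)))
    clear hyz
    induction hy using Submodule.mul_induction_on' with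
    | mem_mul_mem m hm n hn =>
      rw [← mul_assoc]
      obtain ⟨y', hy', z', hz', h1⟩ := Submodule.mem_sup.1 (hu m hm)
      rw [← h1, add_mul]
      refine Submodule.add_mem _ (Submodule.mem_sup_left ?_) (Submodule.mem_sup_right
        (hY.right (Submodule.mul_mem_mul hz' hn)))
      have h2 := Submodule.mul_mem_mul hy' hn
      rw [mul_assoc, U_mul] at h2
      exact h2
    | add y _ z _ h1 h2 =>
      rw [mul_add]
      exact Submodule.add_mem _ h1 h2

lemma isId_bot (U : Subalgebra F (Module.End F A)) : IsId U ⊥ := by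
  refine ⟨bot_le, ?_, ?_⟩
  · rw [Submodule.mul_bot]
  · rw [Submodule.bot_mul]

/-! ### Engel's theorem -/

/-- If all elements of the ideal of `B` generated by `c` are nilpotent on `A`, then `R_c` generates
a nilpotent ideal. -/
theorem nl_of_ideal (B : LieSubalgebra F A) [Module.Finite F B] (c : B)
    (h : ∀ x ∈ LieSubmodule.lieSpan F B ({c} : Set B), IsNilpotent (R F (x : A))) :
    Nl B (c : A) := by
  set I : LieIdeal F B := LieSubmodule.lieSpan F B ({c} : Set B) with hI
  set S : Submodule F (Module.End F A) :=
    Submodule.map ((Rl F A).comp (B.incl : B →ₗ[F] A)) I.toSubmodule with hS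
  have hnil : LieModule.IsNilpotent I A := by
    rw [LieModule.isNilpotent_iff_forall (R := F)]
    intro x
    have h1 := h (x : B) x.2
    have h2 : LieModule.toEnd F I A x = - R F ((x : B) : A) := by
      ext z
      change ⁅((x : B) : A), z⁆ = -⁅z, ((x : B) : A)⁆
      rw [lie_skew]
    rw [h2]
    exact h1.neg
  obtain ⟨N, hN⟩ := LieModule.IsNilpotent.nilpotent F I A
  have key : ∀ n, ∀ t ∈ S ^ n, ∀ m : A, t m ∈ LieModule.lowerCentralSeries F I A n := by
    intro n
    induction n with
    | zero => intro t _ m; simp
    | succ n ih =>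
      intro t ht m
      rw [pow_succ'] at ht
      induction ht using Submodule.mul_induction_on' with
      | mem_mul_mem s hs t ht =>
        obtain ⟨x, hx, rfl⟩ := hs
        have h3 := ih t ht m
        change ⁅t m, (x : A)⁆ ∈ _
        rw [← lie_skew, LieModule.lowerCentralSeries_succ]
        refine Submodule.neg_mem _ ?_
        exact LieSubmodule.lie_mem_lie (LieSubmodule.mem_top (⟨x, hx⟩ : I)) h3
      | add x _ y _ hx hy =>
        rw [LinearMap.add_apply]
        exact Submodule.add_mem _ hx hy
  have hSn : IsNilpotent S := by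
    refine ⟨N, le_bot_iff.1 ?_⟩
    intro t ht
    rw [Submodule.mem_bot]
    ext m
    have := key N t ht m
    rw [hN, LieSubmodule.mem_bot] at this
    exact this
  have hnorm : Subalgebra.toSubmodule (Ua F (B : Set A)) * S ≤
      S * Subalgebra.toSubmodule (Ua F (B : Set A)) := by
    have := normal_of_gens (B := B) (S := S) (Y := ⊥) (isId_bot _) ?_
    · simpa using this
    · rintro b hb _ ⟨x, hx, rfl⟩
      refine Submodule.mem_sup_left ?_
      change R F b * R F (x : A) ∈ _
      have e : R F b * R F (x : A) = R F (x : A) * R F b + R F ⁅(x : A), b⁆ * 1 := by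
        rw [R_lie, mul_one]; abel
      rw [e]
      refine Submodule.add_mem _ (Submodule.mul_mem_mul ⟨x, hx, rfl⟩ (R_mem_Ua hb))
        (Submodule.mul_mem_mul ⟨⁅x, (⟨b, hb⟩ : B)⁆, ?_, rfl⟩ (Subalgebra.one_mem _))
      rw [← lie_skew]
      exact Submodule.neg_mem _ (I.lie_mem hx)
  refine isNilpotent_mono (gen_mono le_rfl ?_) (isNilpotent_gen_of_normal hSn hnorm)
  rw [Submodule.span_singleton_le_iff_mem]
  exact ⟨c, LieSubmodule.subset_lieSpan (by simp), rfl⟩

/-! ### Characteristic zero -/

/-- right brackets -/
def rb (b : A) (j : ℕ) (c : A) : A := (fun z : A => ⁅z, b⁆)^[j] c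

/-- the derivation `x ↦ R_b x - x R_b` of `End A` -/
noncomputable def Dr (b : A) : Module.End F A →ₗ[F] Module.End F A :=
  LinearMap.mulLeft F (R F b) - LinearMap.mulRight F (R F b)

lemma Dr_apply (b : A) (x : Module.End F A) : Dr b x = R F b * x - x * R F b := rfl

lemma Dr_R (b c : A) : Dr b (R F c) = R F ⁅c, b⁆ := by
  rw [Dr_apply, R_lie]

lemma Dr_iterate (b c : A) (n : ℕ) : (Dr b)^[n] (R F c) = R F (rb b n c) := by
  induction n with
  | zero => rfl
  | succ n ih =>
    rw [Function.iterate_succ_apply', ih, Dr_R]
    unfold rb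
    rw [Function.iterate_succ_apply']

lemma rb_mem_lcs {B : LieSubalgebra F A} (b c : B) (i j : ℕ)
    (hc : c ∈ LieModule.lowerCentralSeries F B B i) :
    rb b j c ∈ LieModule.lowerCentralSeries F B B (i + j) := by
  induction j with
  | zero => exact hc
  | succ j ih =>
    unfold rb at ih ⊢
    rw [Function.iterate_succ_apply', ← add_assoc, LieModule.lowerCentralSeries_succ, ← lie_skew]
    exact Submodule.neg_mem _ (LieSubmodule.lie_mem_lie (LieSubmodule.mem_top _) ih)

lemma coe_rb {B : LieSubalgebra F A} (b c : B) (j : ℕ) :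
    ((rb b j c : B) : A) = rb (b : A) j (c : A) := by
  induction j with
  | zero => rfl
  | succ j ih =>
    unfold rb at ih ⊢
    rw [Function.iterate_succ_apply', Function.iterate_succ_apply', ← ih]
    rfl

theorem nl_of_isNilpotent [CharZero F] (B : LieSubalgebra F A) [Module.Finite F B]
    (hB : LieRing.IsNilpotent B) (c : B) (hc : IsNilpotent (R F (c : A))) : Nl B (c : A) := by
  classical
  obtain ⟨N, hN⟩ := LieModule.IsNilpotent.nilpotent F B B
  have hzero : Nl B (0 : A) := by
    refine ⟨1, ?_⟩
    rw [pow_one, R_zero]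
    unfold gen
    rw [Submodule.span_zero_singleton, Submodule.mul_bot, Submodule.bot_mul]
    rfl
  have hbot : ∀ m, ∀ x : B, N ≤ m → x ∈ LieModule.lowerCentralSeries F B B m → x = 0 := by
    intro m x hm hx
    have := LieModule.antitone_lowerCentralSeries F B B hm hx
    rw [hN, LieSubmodule.mem_bot] at this
    exact this
  have main : ∀ n i : ℕ, N ≤ i + n → ∀ c : B, c ∈ LieModule.lowerCentralSeries F B B i →
      IsNilpotent (R F (c : A)) → Nl B (c : A) := by
    intro n
    induction n with
    | zero =>
      intro i hi c hc _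
      rw [hbot i c hi hc]
      exact hzero
    | succ n ih =>
      intro i hi c hc hcn
      -- all brackets `[...[c, b], ..., b]`
      have hstep : ∀ b : B, ∀ m j : ℕ, 1 ≤ j → N ≤ j + m → Nl B ((rb b j c : B) : A) := by
        intro b m
        induction m with
        | zero =>
          intro j _ hj
          rw [hbot (i + j) (rb b j c) (by omega) (rb_mem_lcs b c i j hc)]
          exact hzero
        | succ m ihm =>
          intro j hj1 hj
          have hmemU : ∀ x : B, R F (x : A) ∈ Ua F (B : Set A) := fun x => R_mem_Ua x.2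
          set s : Finset (Module.End F A) :=
            ((Finset.range N).filter (fun l => j < l)).image
              (fun l => R F ((rb b l c : B) : A)) with hs
          have hsU : ∀ x ∈ s, x ∈ Ua F (B : Set A) := by
            intro x hx
            obtain ⟨l, _, rfl⟩ := Finset.mem_image.1 hx
            exact hmemU _
          have hYn : IsNilpotent (gen (Ua F (B : Set A)) (Submodule.span F (s : Set _))) := by
            refine isNilpotent_gen_span s hsU ?_
            intro x hx
            obtain ⟨l, hl, rfl⟩ := Finset.mem_image.1 hx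
            obtain ⟨hl1, hl2⟩ := Finset.mem_filter.1 hl
            exact ihm l (by omega) (by omega)
          have hY : IsId (Ua F (B : Set A))
              (gen (Ua F (B : Set A)) (Submodule.span F (s : Set _))) :=
            isId_gen (Submodule.span_le.2 fun x hx => hsU x hx)
          obtain ⟨k, hk⟩ := hcn
          have h1 : ((Dr (b : A))^[j] (R F (c : A))) ^ k ∈
              gen (Ua F (B : Set A)) (Submodule.span F (s : Set _)) := by
            refine pow_iterate_mem (Dr (b : A)) ?_ hY ?_ ?_ j ?_ hk
            · intro x y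
              simp only [Dr_apply]
              noncomm_ring
            · intro n
              rw [Dr_iterate, ← coe_rb]
              exact hmemU _
            · intro y hy
              rw [Dr_apply]
              exact Subalgebra.sub_mem _ (Subalgebra.mul_mem _ (hmemU b) hy)
                (Subalgebra.mul_mem _ hy (hmemU b))
            · intro l hl
              rw [Dr_iterate, ← coe_rb]
              rcases lt_or_ge l N with hlN | hlN
              · refine le_gen _ _ (Submodule.subset_span ?_)
                rw [hs, Finset.coe_image]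
                exact ⟨l, by simp [hlN, hl], rfl⟩
              · rw [hbot (i + l) (rb b l c) (by omega) (rb_mem_lcs b c i l hc)]
                change R F (0 : A) ∈ _
                rw [R_zero]
                exact Submodule.zero_mem _
          rw [Dr_iterate, ← coe_rb] at h1
          have h2 : IsNilpotent (R F ((rb b j c : B) : A)) := by
            obtain ⟨M, hM⟩ := hYn
            refine ⟨k * M, ?_⟩
            rw [pow_mul]
            have h3 : (R F ((rb b j c : B) : A) ^ k) ^ M ∈
                (gen (Ua F (B : Set A)) (Submodule.span F (s : Set _))) ^ M :=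
              Submodule.pow_mem_pow _ h1 M
            rw [hM] at h3
            exact (Submodule.mem_bot F).1 h3
          refine ih (i + 1) (by omega) _ ?_ h2
          have h4 := rb_mem_lcs b c i j hc
          exact LieModule.antitone_lowerCentralSeries F B B (by omega) h4
      -- the ideal generated by all `R_[c, b]`
      obtain ⟨t, ht⟩ := (Module.Finite.fg_top : (⊤ : Submodule F B).FG)
      set s : Finset (Module.End F A) := t.image (fun b : B => R F ((⁅c, b⁆ : B) : A)) with hs
      have hsU : ∀ x ∈ s, x ∈ Ua F (B : Set A) := by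
        intro x hx
        obtain ⟨l, _, rfl⟩ := Finset.mem_image.1 hx
        exact R_mem_Ua (SetLike.coe_mem _)
      have hYn : IsNilpotent (gen (Ua F (B : Set A)) (Submodule.span F (s : Set _))) := by
        refine isNilpotent_gen_span s hsU ?_
        intro x hx
        obtain ⟨b, _, rfl⟩ := Finset.mem_image.1 hx
        exact hstep b N 1 le_rfl (by omega)
      have hY : IsId (Ua F (B : Set A))
          (gen (Ua F (B : Set A)) (Submodule.span F (s : Set _))) :=
        isId_gen (Submodule.span_le.2 fun x hx => hsU x hx)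
      have hcb : ∀ b : B, R F ((⁅c, b⁆ : B) : A) ∈
          gen (Ua F (B : Set A)) (Submodule.span F (s : Set _)) := by
        intro b
        refine le_gen _ _ ?_
        have hb : b ∈ Submodule.span F (t : Set B) := by rw [ht]; trivial
        induction hb using Submodule.span_induction with
        | mem b hb =>
          refine Submodule.subset_span ?_
          rw [hs, Finset.coe_image]
          exact ⟨b, hb, rfl⟩
        | zero =>
          rw [lie_zero]
          change R F (0 : A) ∈ _
          rw [R_zero]; exact Submodule.zero_mem _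
        | add x y _ _ hx hy =>
          rw [lie_add]
          change R F (((⁅c, x⁆ : B) : A) + ((⁅c, y⁆ : B) : A)) ∈ _
          rw [R_add]; exact Submodule.add_mem _ hx hy
        | smul r x _ hx =>
          rw [lie_smul]
          change R F (r • ((⁅c, x⁆ : B) : A)) ∈ _
          rw [R_smul]; exact Submodule.smul_mem _ _ hx
      refine isNilpotent_gen_of_comm hY hYn (R_mem_Ua c.2) hcn ?_
      refine normal_of_gens hY ?_
      intro b hb x hx
      obtain ⟨r, rfl⟩ := Submodule.mem_span_singleton.1 hx
      rw [mul_smul_comm]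
      refine Submodule.smul_mem _ _ ?_
      have e : R F b * R F (c : A) = R F (c : A) * R F b + R F ⁅(c : A), b⁆ := by
        rw [R_lie]; abel
      rw [e]
      refine Submodule.add_mem _ (Submodule.mem_sup_left (Submodule.mul_mem_mul
        (Submodule.mem_span_singleton_self _) (R_mem_Ua hb))) (Submodule.mem_sup_right ?_)
      exact hcb ⟨b, hb⟩
  exact main N 0 (by omega) c (by simp) hc

/-! ### The radical of the multiplication algebra -/

/-- If `R_a` generates a nilpotent ideal in the algebra generated by finitely many `R_x`, always,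
then it lies in the radical. -/
theorem inRadical_of (a : A)
    (h : ∀ T : Finset A, IsNilpotent (gen (Ua F (T : Set A)) (Submodule.span F {R F a}))) :
    InRadicalOfMultAlg F a := by
  classical
  set J : Submodule F (Module.End F A) :=
    ⨆ T : Finset A, gen (Ua F (T : Set A)) (Submodule.span F {R F a}) with hJ
  have hdir : Directed (· ≤ ·) (fun T : Finset A =>
      gen (Ua F (T : Set A)) (Submodule.span F {R F a})) := by
    intro T T'
    refine ⟨T ∪ T', gen_mono (Ua_mono ?_) le_rfl, gen_mono (Ua_mono ?_) le_rfl⟩ <;> simp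
  have hmem : ∀ x, x ∈ J ↔ ∃ T : Finset A,
      x ∈ gen (Ua F (T : Set A)) (Submodule.span F {R F a}) := by
    intro x
    rw [hJ, Submodule.mem_iSup_of_directed _ hdir]
  have hRa : R F a ∈ J := by
    rw [hmem]
    exact ⟨∅, le_gen _ _ (Submodule.mem_span_singleton_self _)⟩
  -- the unital algebra
  have hunit : ∀ T : Finset A, ∀ u ∈ Ua F (T : Set A), ∀ y ∈ multAlg F A,
      u * y ∈ multAlg F A ∧ y * u ∈ multAlg F A := by
    intro T u hu
    have hu' : u ∈ Algebra.adjoin F (R F '' (T : Set A)) := hu
    clear hu
    induction hu' using Algebra.adjoin_induction with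
    | mem u hu =>
      obtain ⟨b, _, rfl⟩ := hu
      intro y hy
      exact ⟨(multAlg F A).mul_mem (R_mem b) hy, (multAlg F A).mul_mem hy (R_mem b)⟩
    | algebraMap r =>
      intro y hy
      rw [Algebra.algebraMap_eq_smul_one, smul_mul_assoc, one_mul, mul_smul_comm, mul_one]
      exact ⟨SMulMemClass.smul_mem r hy, SMulMemClass.smul_mem r hy⟩
    | add u v _ _ hu hv =>
      intro y hy
      rw [add_mul, mul_add]
      exact ⟨(multAlg F A).add_mem (hu y hy).1 (hv y hy).1,
        (multAlg F A).add_mem (hu y hy).2 (hv y hy).2⟩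
    | mul u v _ _ hu hv =>
      intro y hy
      rw [mul_assoc, ← mul_assoc y]
      exact ⟨(hu _ (hv y hy).1).1, (hv _ (hu y hy).2).2⟩
  have hJle : ∀ x ∈ J, x ∈ multAlg F A := by
    intro x hx
    obtain ⟨T, hT⟩ := (hmem x).1 hx
    have h1 : gen (Ua F (T : Set A)) (Submodule.span F {R F a}) ≤
        (multAlg F A).toSubmodule := by
      unfold gen
      rw [Submodule.mul_le]
      intro m hm n hn
      refine (hunit T n hn m ?_).2
      have h2 : Subalgebra.toSubmodule (Ua F (T : Set A)) * Submodule.span F {R F a} ≤
          (multAlg F A).toSubmodule := by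
        rw [Submodule.mul_le]
        intro m hm n hn
        obtain ⟨r, rfl⟩ := Submodule.mem_span_singleton.1 hn
        refine (hunit T m hm _ ?_).1
        exact SMulMemClass.smul_mem r (R_mem a)
      exact h2 hm
    exact h1 hT
  have hJid : ∀ y ∈ multAlg F A, ∀ x ∈ J, y * x ∈ J ∧ x * y ∈ J := by
    intro y hy
    induction hy using NonUnitalAlgebra.adjoin_induction with
    | mem y hy =>
      obtain ⟨b, rfl⟩ := hy
      intro x hx
      obtain ⟨T, hT⟩ := (hmem x).1 hx
      have h1 : x ∈ gen (Ua F ((T ∪ {b} : Finset A) : Set A)) (Submodule.span F {R F a}) :=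
        gen_mono (Ua_mono (by simp)) le_rfl hT
      have h2 : R F b ∈ Subalgebra.toSubmodule (Ua F ((T ∪ {b} : Finset A) : Set A)) :=
        R_mem_Ua (by simp)
      constructor
      · rw [hmem]
        refine ⟨T ∪ {b}, ?_⟩
        have h3 := Submodule.mul_mem_mul h2 h1
        unfold gen at h3 ⊢
        rw [← mul_assoc, ← mul_assoc, U_mul] at h3
        exact h3
      · rw [hmem]
        refine ⟨T ∪ {b}, ?_⟩
        have h3 := Submodule.mul_mem_mul h1 h2
        unfold gen at h3 ⊢
        rw [mul_assoc, U_mul] at h3
        exact h3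
    | add y z _ _ hy hz =>
      intro x hx
      rw [add_mul, mul_add]
      exact ⟨J.add_mem (hy x hx).1 (hz x hx).1, J.add_mem (hy x hx).2 (hz x hx).2⟩
    | zero => intro x _; rw [zero_mul, mul_zero]; exact ⟨J.zero_mem, J.zero_mem⟩
    | mul y z _ _ hy hz =>
      intro x hx
      rw [mul_assoc, ← mul_assoc x y z]
      exact ⟨(hy _ (hz x hx).1).1, (hz _ (hy x hx).2).2⟩
    | smul r y _ hy =>
      intro x hx
      rw [smul_mul_assoc, mul_smul_comm]
      exact ⟨J.smul_mem r (hy x hx).1, J.smul_mem r (hy x hx).2⟩
  have hloc : IsLocallyNilpotentIdeal F (multAlg F A) J := by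
    refine ⟨hJle, hJid, ?_⟩
    intro s hs
    have hT : ∃ T : Finset A, ∀ x ∈ s,
        x ∈ gen (Ua F (T : Set A)) (Submodule.span F {R F a}) := by
      clear hJle hJid
      induction s using Finset.induction_on with
      | empty => exact ⟨∅, by simp⟩
      | insert x s _ ih =>
        obtain ⟨T, hT⟩ := ih fun y hy => hs y (by simp [hy])
        obtain ⟨T', hT'⟩ := (hmem x).1 (hs x (by simp))
        refine ⟨T ∪ T', ?_⟩
        intro y hy
        rcases Finset.mem_insert.1 hy with rfl | hy
        · exact gen_mono (Ua_mono (by simp)) le_rfl hT'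
        · exact gen_mono (Ua_mono (by simp)) le_rfl (hT y hy)
    obtain ⟨T, hT⟩ := hT
    obtain ⟨n, hn⟩ := h T
    refine (isNilpotentAlg_iff _).2 ⟨n, ?_⟩
    intro l hl hlen
    have h1 : ∀ l : List (Module.End F A), (∀ x ∈ l, x ∈ s) →
        l.prod ∈ gen (Ua F (T : Set A)) (Submodule.span F {R F a}) ^ l.length := by
      intro l
      induction l with
      | nil =>
        intro _
        rw [List.prod_nil, List.length_nil, pow_zero]
        exact Submodule.one_le.1 le_rfl
      | cons x l ih =>
        intro hl
        rw [List.prod_cons, List.length_cons, pow_succ']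
        exact Submodule.mul_mem_mul (hT x (hl x (by simp)))
          (ih fun y hy => hl y (by simp [hy]))
    have h2 := h1 l (fun x hx => Finset.mem_coe.1 (hl x hx))
    rw [hlen, pow_succ, hn, zero_mul] at h2
    exact (Submodule.mem_bot F).1 h2
  exact le_sSup (show J ∈ {I | IsLocallyNilpotentIdeal F (multAlg F A) I} from hloc) hRa

/-- necessity -/
theorem isNilpotent_of_inRadical (a : A) (h : InRadicalOfMultAlg F a) :
    ∀ x ∈ LieSubmodule.lieSpan F A ({a} : Set A), IsNilpotent (R F x) := by
  obtain ⟨I, hI, ha⟩ := mem_assocRadical h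
  have h1 : LieSubmodule.lieSpan F A ({a} : Set A) ≤ pull F A I hI := by
    rw [LieSubmodule.lieSpan_le]
    intro x hx
    rw [Set.mem_singleton_iff.1 hx]
    exact ha
  intro x hx
  have hx' : R F x ∈ I := h1 hx
  obtain ⟨n, _, hn⟩ := hI.2.2 {R F x} (by simpa using hx')
  refine ⟨n, ?_⟩
  have h2 := hn (List.replicate n (R F x)) (by
      intro y hy
      rw [List.eq_of_mem_replicate hy]
      exact NonUnitalAlgebra.subset_adjoin F (by simp)) (by simp)
  rwa [List.prod_replicate] at h2

/-- a locally nilpotent Lie algebra: every finite set lies in a finite-dimensional nilpotent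
subalgebra -/
lemma gen_of_locNil (hA : IsLocallyNilpotentLie F A) (a : A)
    (h : ∀ (B : LieSubalgebra F A) [Module.Finite F B], LieRing.IsNilpotent B →
      ∀ c : B, (c : A) = a → Nl B a) : InRadicalOfMultAlg F a := by
  classical
  refine inRadical_of a fun T => ?_
  have hB := hA (insert a T)
  have := finite_lieSpan _ hB
  have ha : a ∈ LieSubalgebra.lieSpan F A ((insert a T : Finset A) : Set A) :=
    LieSubalgebra.subset_lieSpan (by simp)
  have h1 := h _ hB ⟨a, ha⟩ rfl
  refine isNilpotent_mono (gen_mono (Ua_mono ?_) le_rfl) h1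
  intro x hx
  exact LieSubalgebra.subset_lieSpan (by simp [Finset.mem_coe.1 hx])

/-- The criterion, every field. -/
theorem criterion (hA : IsLocallyNilpotentLie F A) (a : A) :
    InRadicalOfMultAlg F a ↔
      ∀ x ∈ LieSubmodule.lieSpan F A ({a} : Set A), IsNilpotent (R F x) := by
  refine ⟨isNilpotent_of_inRadical a, fun h => gen_of_locNil hA a ?_⟩
  intro B _ _ c hc
  rw [← hc]
  refine nl_of_ideal B c fun x hx => h _ ?_
  -- the ideal of `B` generated by `c` lies in the ideal of `A` generated by `a`
  let K : LieIdeal F B :=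
    { carrier := {x | (x : A) ∈ LieSubmodule.lieSpan F A ({a} : Set A)}
      add_mem' := fun {x y} hx hy => (LieSubmodule.lieSpan F A ({a} : Set A)).add_mem hx hy
      zero_mem' := (LieSubmodule.lieSpan F A ({a} : Set A)).zero_mem
      smul_mem' := fun r x hx => (LieSubmodule.lieSpan F A ({a} : Set A)).smul_mem r hx
      lie_mem := fun {y x} hx => (LieSubmodule.lieSpan F A ({a} : Set A)).lie_mem hx }
  have hK : LieSubmodule.lieSpan F B ({c} : Set B) ≤ K := by
    rw [LieSubmodule.lieSpan_le]
    intro y hy
    rw [Set.mem_singleton_iff.1 hy]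
    change (c : A) ∈ LieSubmodule.lieSpan F A ({a} : Set A)
    rw [hc]
    exact LieSubmodule.subset_lieSpan (by simp)
  exact hK hx

/-- The criterion in characteristic zero. -/
theorem criterion_zero [CharZero F] (hA : IsLocallyNilpotentLie F A) (a : A) :
    InRadicalOfMultAlg F a ↔ IsNilpotent (R F a) := by
  refine ⟨fun h => isNilpotent_of_inRadical a h a (LieSubmodule.subset_lieSpan (by simp)),
    fun h => gen_of_locNil hA a ?_⟩
  intro B _ hB c hc
  rw [← hc]
  exact nl_of_isNilpotent B hB c (by rw [hc]; exact h)

end Pool.Agent.Y82.EL
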