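import Mathlib
import Pool.Agent.Y82.EL.Crit

set_option autoImplicit false

/-!
Characteristic `p`: a locally nilpotent Lie algebra with an element `a` such that `R_a ^ p = 0` but
`R_z` is not nilpotent for some `z` in the ideal generated by `a`.
-/

open Pool.Agent.Results.MP_2c0ed3_al.EngelRadical

namespace Pool.Agent.Y82.EL

universe u v w

/-! ### Transfer of local nilpotence -/

section Transfer

variable {F : Type u} [Field F] {A : Type v} [LieRing A] [LieAlgebra F A]
  {A' : Type w} [LieRing A'] [LieAlgebra F A']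

lemma locNil_of_injective (f : A →ₗ⁅F⁆ A') (hf : Function.Injective f)
    (h : IsLocallyNilpotentLie F A') : IsLocallyNilpotentLie F A := by
  classical
  intro s
  have h1 := h (s.image f)
  have hle : LieSubalgebra.lieSpan F A (s : Set A) ≤
      (LieSubalgebra.lieSpan F A' ((s.image f : Finset A') : Set A')).comap f := by
    rw [LieSubalgebra.lieSpan_le]
    intro x hx
    change f x ∈ LieSubalgebra.lieSpan F A' ((s.image f : Finset A') : Set A')
    exact LieSubalgebra.subset_lieSpan (Finset.mem_coe.2 (Finset.mem_image_of_mem _ hx))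
  let g : LieSubalgebra.lieSpan F A (s : Set A) →ₗ⁅F⁆
      LieSubalgebra.lieSpan F A' ((s.image f : Finset A') : Set A') :=
    { toFun := fun x => ⟨f x, hle x.2⟩
      map_add' := fun x y => Subtype.ext (map_add f (x : A) (y : A))
      map_smul' := fun c x => Subtype.ext (map_smul f c (x : A))
      map_lie' := fun {x y} => Subtype.ext (LieHom.map_lie f (x : A) (y : A)) }
  have hg : Function.Injective g := by
    intro x y hxy
    exact Subtype.ext (hf (Subtype.ext_iff.1 hxy))
  exact hg.lieAlgebra_isNilpotent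

lemma lieRadical_eq_top (h : IsLocallyNilpotentLie F A) : lieRadical F A = ⊤ := by
  have h1 : IsLocallyNilpotentLie F (⊤ : LieIdeal F A) :=
    locNil_of_injective (LieIdeal.incl (⊤ : LieIdeal F A)) Subtype.val_injective h
  exact top_le_iff.1 (le_sSup h1)

lemma locNil_of_top (h : IsLocallyNilpotentLie F (⊤ : LieIdeal F A)) :
    IsLocallyNilpotentLie F A := by
  let f : A →ₗ⁅F⁆ (⊤ : LieIdeal F A) :=
    { toFun := fun x => ⟨x, trivial⟩
      map_add' := fun x y => rfl
      map_smul' := fun c x => rfl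
      map_lie' := fun {x y} => rfl }
  exact locNil_of_injective f (fun x y hxy => congrArg Subtype.val hxy) h

end Transfer

/-! ### The module -/

variable (F : Type u) [Field F]

/-- `f i j = 0` for `2 i + j ≥ k` -/
def Lo {F : Type u} [Field F] (k : ℕ) (f : ℕ → ℕ → F) : Prop := ∀ i j, k ≤ 2 * i + j → f i j = 0

/-- the finitely supported double sequences -/
def V : Submodule F (ℕ → ℕ → F) where
  carrier := {f | ∃ k, Lo k f}
  add_mem' := by
    rintro f g ⟨k, hk⟩ ⟨l, hl⟩
    refine ⟨max k l, fun i j hij => ?_⟩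
    change f i j + g i j = 0
    rw [hk i j (le_trans (le_max_left _ _) hij), hl i j (le_trans (le_max_right _ _) hij),
      add_zero]
  zero_mem' := ⟨0, fun _ _ _ => rfl⟩
  smul_mem' := by
    rintro c f ⟨k, hk⟩
    refine ⟨k, fun i j hij => ?_⟩
    change c * f i j = 0
    rw [hk i j hij, mul_zero]

variable {F}

/-- coefficients of the operators -/
def X0 (f : ℕ → ℕ → F) : ℕ → ℕ → F := fun i j => ((j + 1 : ℕ) : F) * f i (j + 1)
def Z0 (f : ℕ → ℕ → F) : ℕ → ℕ → F := fun i j => f (i + 1) j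
def Y0 (f : ℕ → ℕ → F) : ℕ → ℕ → F := fun i j => if j = 0 then 0 else f (i + 1) (j - 1)

lemma Lo.mono {k l : ℕ} {f : ℕ → ℕ → F} (h : Lo k f) (hkl : k ≤ l) : Lo l f :=
  fun i j hij => h i j (hkl.trans hij)

lemma lo_X0 {k : ℕ} {f : ℕ → ℕ → F} (h : Lo (k + 1) f) : Lo k (X0 f) := by
  intro i j hij
  unfold X0
  rw [h i (j + 1) (by omega), mul_zero]

lemma lo_Z0 {k : ℕ} {f : ℕ → ℕ → F} (h : Lo (k + 1) f) : Lo k (Z0 f) := by
  intro i j hij
  unfold Z0
  rw [h (i + 1) j (by omega)]

lemma lo_Y0 {k : ℕ} {f : ℕ → ℕ → F} (h : Lo (k + 1) f) : Lo k (Y0 f) := by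
  intro i j hij
  unfold Y0
  split_ifs with hj
  · rfl
  · exact h (i + 1) (j - 1) (by omega)

/-- differentiation in the second variable -/
def Xo : V F →ₗ[F] V F where
  toFun f := ⟨X0 f.1, by
    obtain ⟨k, hk⟩ := f.2
    exact ⟨k, lo_X0 (hk.mono (Nat.le_succ k))⟩⟩
  map_add' f g := by
    apply Subtype.ext
    funext i j
    change _ * (f.1 i (j + 1) + g.1 i (j + 1)) = _ * f.1 i (j + 1) + _ * g.1 i (j + 1)
    rw [mul_add]
  map_smul' c f := by
    apply Subtype.ext
    funext i j
    change ((j + 1 : ℕ) : F) * (c * f.1 i (j + 1)) = c * (((j + 1 : ℕ) : F) * f.1 i (j + 1))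
    ring

/-- the shift in the first variable -/
def Zo : V F →ₗ[F] V F where
  toFun f := ⟨Z0 f.1, by
    obtain ⟨k, hk⟩ := f.2
    exact ⟨k, lo_Z0 (hk.mono (Nat.le_succ k))⟩⟩
  map_add' f g := rfl
  map_smul' c f := rfl

/-- the shift in the first variable times multiplication by the second variable -/
def Yo : V F →ₗ[F] V F where
  toFun f := ⟨Y0 f.1, by
    obtain ⟨k, hk⟩ := f.2
    exact ⟨k, lo_Y0 (hk.mono (Nat.le_succ k))⟩⟩
  map_add' f g := by
    apply Subtype.ext
    funext i j
    change (if j = 0 then (0 : F) else f.1 (i + 1) (j - 1) + g.1 (i + 1) (j - 1)) =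
      (if j = 0 then (0 : F) else f.1 (i + 1) (j - 1)) +
        (if j = 0 then (0 : F) else g.1 (i + 1) (j - 1))
    split_ifs <;> simp
  map_smul' c f := by
    apply Subtype.ext
    funext i j
    change (if j = 0 then (0 : F) else c * f.1 (i + 1) (j - 1)) =
      c * (if j = 0 then (0 : F) else f.1 (i + 1) (j - 1))
    split_ifs <;> simp

lemma XY (f : V F) : Xo (Yo f) = Yo (Xo f) + Zo f := by
  apply Subtype.ext
  funext i j
  change ((j + 1 : ℕ) : F) * (if j + 1 = 0 then (0 : F) else f.1 (i + 1) (j + 1 - 1)) =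
    (if j = 0 then (0 : F) else ((j - 1 + 1 : ℕ) : F) * f.1 (i + 1) (j - 1 + 1)) + f.1 (i + 1) j
  rw [if_neg (Nat.succ_ne_zero j), Nat.add_sub_cancel]
  split_ifs with hj
  · subst hj
    simp
  · rw [Nat.sub_add_cancel (Nat.one_le_iff_ne_zero.2 hj), Nat.cast_add, Nat.cast_one]
    ring

lemma XZ (f : V F) : Xo (Zo f) = Zo (Xo f) := rfl

lemma YZ (f : V F) : Yo (Zo f) = Zo (Yo f) := rfl

/-- the action of the Heisenberg algebra -/
def To (h : F × F × F) : V F →ₗ[F] V F := h.1 • Xo + h.2.1 • Yo + h.2.2 • Zo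

lemma To_apply (h : F × F × F) (f : V F) :
    To h f = h.1 • Xo f + h.2.1 • Yo f + h.2.2 • Zo f := rfl

lemma To_comm (h h' : F × F × F) (f : V F) :
    To h (To h' f) = To h' (To h f) + (h.1 * h'.2.1 - h.2.1 * h'.1) • Zo f := by
  simp only [To_apply, map_add, map_smul, smul_add, smul_smul, XY, XZ, YZ]
  module

/-- the Lie algebra: Heisenberg algebra acting on `V` -/
def Ep (F : Type u) [Field F] : Type u := (F × F × F) × V F

noncomputable instance : AddCommGroup (Ep F) := inferInstanceAs (AddCommGroup ((F × F × F) × V F))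

noncomputable instance : Module F (Ep F) := inferInstanceAs (Module F ((F × F × F) × V F))

namespace Ep

lemma add_1 (x y : Ep F) : (x + y).1 = x.1 + y.1 := rfl
lemma add_2 (x y : Ep F) : (x + y).2 = x.2 + y.2 := rfl
lemma smul_1 (c : F) (x : Ep F) : (c • x).1 = c • x.1 := rfl
lemma smul_2 (c : F) (x : Ep F) : (c • x).2 = c • x.2 := rfl

/-- the symplectic form -/
def om (h h' : F × F × F) : F := h.1 * h'.2.1 - h.2.1 * h'.1

noncomputable instance : Bracket (Ep F) (Ep F) :=
  ⟨fun x y => ((0, 0, om x.1 y.1), To x.1 y.2 - To y.1 x.2)⟩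

lemma lie_def (x y : Ep F) :
    ⁅x, y⁆ = (((0, 0, om x.1 y.1), To x.1 y.2 - To y.1 x.2) : (F × F × F) × V F) := rfl

lemma ext' {x y : Ep F} (h1 : x.1 = y.1) (h2 : x.2 = y.2) : x = y := Prod.ext h1 h2

lemma To_add (h h' : F × F × F) (f : V F) : To (h + h') f = To h f + To h' f := by
  simp only [To_apply, Prod.fst_add, Prod.snd_add, add_smul]
  abel

lemma To_smul (c : F) (h : F × F × F) (f : V F) : To (c • h) f = c • To h f := by
  simp only [To_apply, Prod.smul_fst, Prod.smul_snd, smul_add, smul_smul, smul_eq_mul]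

lemma To_z (c : F) (f : V F) : To (0, 0, c) f = c • Zo f := by
  simp [To_apply]

noncomputable instance : LieRing (Ep F) where
  add_lie x y z := by
    refine ext' ?_ ?_
    · simp only [lie_def, add_1, om, Prod.fst_add, Prod.snd_add, Prod.mk_add_mk, add_zero]
      congr 2
      ring
    · simp only [lie_def, add_1, add_2, To_add, map_add]
      abel
  lie_add x y z := by
    refine ext' ?_ ?_
    · simp only [lie_def, add_1, om, Prod.fst_add, Prod.snd_add, Prod.mk_add_mk, add_zero]
      congr 2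
      ring
    · simp only [lie_def, add_1, add_2, To_add, map_add]
      abel
  lie_self x := by
    refine ext' ?_ ?_
    · change ((0 : F), (0 : F), om x.1 x.1) = 0
      have : om x.1 x.1 = 0 := by unfold om; ring
      rw [this]; rfl
    · change To x.1 x.2 - To x.1 x.2 = 0
      rw [sub_self]
  leibniz_lie x y z := by
    refine ext' ?_ ?_
    · simp [lie_def, add_1, om]
    · simp only [lie_def, add_2, To_z, map_sub]
      rw [To_comm x.1 y.1, To_comm x.1 z.1, To_comm y.1 z.1]
      simp only [om]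
      module

noncomputable instance : LieAlgebra F (Ep F) where
  lie_smul c x y := by
    refine ext' ?_ ?_
    · simp only [lie_def, smul_1, om, Prod.smul_fst, Prod.smul_snd, Prod.smul_mk, smul_eq_mul,
        mul_zero]
      congr 2
      ring
    · simp only [lie_def, smul_1, smul_2, To_smul, map_smul, smul_sub]

/-! local nilpotence -/

lemma lo_add {k : ℕ} {f g : ℕ → ℕ → F} (hf : Lo k f) (hg : Lo k g) : Lo k (f + g) := by
  intro i j hij
  change f i j + g i j = 0
  rw [hf i j hij, hg i j hij, add_zero]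

lemma lo_smul {k : ℕ} {f : ℕ → ℕ → F} (hf : Lo k f) (c : F) : Lo k (c • f) := by
  intro i j hij
  change c * f i j = 0
  rw [hf i j hij, mul_zero]

lemma lo_To {k : ℕ} {f : V F} (hf : Lo (k + 1) f.1) (h : F × F × F) : Lo k (To h f).1 :=
  lo_add (lo_add (lo_smul (lo_X0 hf) _) (lo_smul (lo_Y0 hf) _)) (lo_smul (lo_Z0 hf) _)

lemma lo_neg {k : ℕ} {f : ℕ → ℕ → F} (hf : Lo k f) : Lo k (-f) := by
  intro i j hij
  change - f i j = 0
  rw [hf i j hij, neg_zero]

/-- `x` has trivial Heisenberg part and module part in `Lo k` -/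
def Low (k : ℕ) (x : Ep F) : Prop := x.1 = 0 ∧ Lo k x.2.1

lemma low_lie {k : ℕ} {x : Ep F} (hx : Low (k + 1) x) (y : Ep F) : Low k ⁅x, y⁆ := by
  have h0 : To (0 : F × F × F) y.2 = 0 := by simp [To_apply]
  refine ⟨?_, ?_⟩
  · change ((0 : F), (0 : F), om x.1 y.1) = 0
    have : om x.1 y.1 = 0 := by rw [hx.1]; simp [om]
    rw [this]; rfl
  · change Lo k (To x.1 y.2 - To y.1 x.2 : V F).1
    rw [hx.1, h0, zero_sub]
    exact lo_neg (lo_To hx.2 _)

lemma low_zero {x : Ep F} (hx : Low 0 x) : x = 0 := by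
  refine ext' hx.1 (Subtype.ext ?_)
  funext i j
  exact hx.2 i j (Nat.zero_le _)

lemma low_foldl (k : ℕ) (x : Ep F) (hx : Low k x) (l : List (Ep F)) (hl : l.length = k) :
    l.foldl (fun z x => ⁅z, x⁆) x = 0 := by
  induction k generalizing x l with
  | zero =>
    rw [List.length_eq_zero_iff.1 hl]
    exact low_zero hx
  | succ k ih =>
    cases l with
    | nil => simp at hl
    | cons y l =>
      rw [List.foldl_cons]
      exact ih _ (low_lie hx y) l (by simpa using hl)

lemma lo_sub {k : ℕ} {f g : V F} (hf : Lo k f.1) (hg : Lo k g.1) : Lo k (f - g : V F).1 := by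
  intro i j hij
  change f.1 i j - g.1 i j = 0
  rw [hf i j hij, hg i j hij, sub_zero]

/-- the subalgebra of the elements with module part in `Lo k` -/
noncomputable def bdd (F : Type u) [Field F] (k : ℕ) : LieSubalgebra F (Ep F) where
  carrier := {x | Lo k x.2.1}
  add_mem' := fun hx hy => lo_add hx hy
  zero_mem' := fun _ _ _ => rfl
  smul_mem' := fun c _ hx => lo_smul hx c
  lie_mem' := fun {x y} hx hy =>
    lo_sub (lo_To (Lo.mono hy (Nat.le_succ k)) x.1) (lo_To (Lo.mono hx (Nat.le_succ k)) y.1)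

theorem locNil : IsLocallyNilpotentLie F (Ep F) := by
  apply locNil_of_top
  apply locNil_of
  intro s
  have hk : ∀ x : Ep F, ∃ k, Lo k x.2.1 := fun x => x.2.2
  choose k hk using hk
  refine ⟨bdd F (s.sup k), ?_, s.sup k + 2, ?_⟩
  · intro x hx
    exact (hk x).mono (Finset.le_sup (f := k) hx)
  · intro b hb l hl hlen
    rcases l with _ | ⟨y, _ | ⟨z, l⟩⟩
    · simp at hlen
    · simp at hlen
    · rw [List.foldl_cons, List.foldl_cons]
      refine low_foldl (s.sup k) _ ⟨?_, ?_⟩ _ (by simpa using hlen)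
      · change ((0 : F), (0 : F), om (0, 0, om b.1 y.1) z.1) = 0
        have : om (0, 0, om b.1 y.1) z.1 = 0 := by simp [om]
        rw [this]; rfl
      · exact (bdd F _).lie_mem ((bdd F _).lie_mem hb (hl y (by simp))) (hl z (by simp))

/-! the elements -/

/-- the element acting as the derivation -/
def a : Ep F := ((1, 0, 0), 0)
def b : Ep F := ((0, 1, 0), 0)
def z : Ep F := ((0, 0, 1), 0)

lemma z_mem : (z : Ep F) ∈ LieSubmodule.lieSpan F (Ep F) ({a} : Set (Ep F)) := by
  have h1 : ⁅(b : Ep F), (a : Ep F)⁆ ∈ LieSubmodule.lieSpan F (Ep F) ({a} : Set (Ep F)) :=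
    LieSubmodule.lie_mem _ (LieSubmodule.subset_lieSpan (by simp))
  have h2 : (z : Ep F) = - ⁅(b : Ep F), (a : Ep F)⁆ := by
    have h3 : ⁅(b : Ep F), (a : Ep F)⁆ = ((((0 : F), (0 : F), (-1 : F)), (0 : V F)) : Ep F) := by
      refine ext' ?_ ?_
      · change ((0 : F), (0 : F), om (0, 1, 0) (1, 0, 0)) = _
        simp [om]
      · change To _ (0 : V F) - To _ (0 : V F) = 0
        simp
    rw [h3]
    refine ext' ?_ ?_
    · change ((0 : F), (0 : F), (1 : F)) = (-(0 : F), -(0 : F), -(-1 : F))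
      simp
    · change (0 : V F) = -0
      simp
  rw [h2]
  exact Submodule.neg_mem _ h1

lemma R_z (x : Ep F) : R F (z : Ep F) x = ((0, - Zo x.2) : (F × F × F) × V F) := by
  change ⁅x, z⁆ = _
  refine ext' ?_ ?_
  · change ((0 : F), (0 : F), om x.1 (0, 0, 1)) = 0
    simp [om]
  · change To x.1 (0 : V F) - To (0, 0, 1) x.2 = _
    simp [To_z]

lemma R_z_pow (n : ℕ) (v : V F) :
    ((R F (z : Ep F)) ^ n) ((0, v) : (F × F × F) × V F) =
      (((0 : F × F × F), (-1 : F) ^ n • (Zo ^ n) v) : (F × F × F) × V F) := by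
  induction n with
  | zero => simp
  | succ n ih =>
    rw [pow_succ', Module.End.mul_apply, ih, R_z]
    refine ext' rfl ?_
    change - Zo ((-1 : F) ^ n • (Zo ^ n) v) = (-1 : F) ^ (n + 1) • (Zo ^ (n + 1)) v
    rw [map_smul, pow_succ' Zo, Module.End.mul_apply, pow_succ (-1 : F), mul_neg_one]
    exact (neg_smul _ _).symm

lemma Zo_pow (n : ℕ) (v : V F) (i j : ℕ) : ((Zo ^ n) v).1 i j = v.1 (i + n) j := by
  induction n generalizing i with
  | zero => rfl
  | succ n ih =>
    rw [pow_succ', Module.End.mul_apply]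
    change ((Zo ^ n) v).1 (i + 1) j = _
    rw [ih, show i + 1 + n = i + (n + 1) by omega]

lemma not_isNilpotent_z : ¬ IsNilpotent (R F (z : Ep F)) := by
  rintro ⟨n, hn⟩
  let v : V F := ⟨fun i j => if i = n ∧ j = 0 then 1 else 0, 2 * n + 1, fun i j hij => by
    change (if i = n ∧ j = 0 then (1 : F) else 0) = 0
    rw [if_neg]
    rintro ⟨rfl, rfl⟩
    omega⟩
  have h1 := R_z_pow n v
  rw [hn] at h1
  have h2 : (-1 : F) ^ n • (Zo ^ n) v = 0 := (congrArg Prod.snd h1).symm
  have h3 : (-1 : F) ^ n * ((Zo ^ n) v).1 0 0 = 0 := by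
    have := congrArg (fun w : V F => w.1 0 0) h2
    exact this
  rw [Zo_pow] at h3
  have h4 : v.1 (0 + n) 0 = 1 := by
    change (if 0 + n = n ∧ (0 : ℕ) = 0 then (1 : F) else 0) = 1
    simp
  rw [h4, mul_one] at h3
  exact pow_ne_zero n (neg_ne_zero.2 one_ne_zero) h3

lemma R_a (x : Ep F) :
    R F (a : Ep F) x = (((0, 0, - x.1.2.1), - Xo x.2) : (F × F × F) × V F) := by
  change ⁅x, a⁆ = _
  refine ext' ?_ ?_
  · change ((0 : F), (0 : F), om x.1 (1, 0, 0)) = _
    simp [om]
  · change To x.1 (0 : V F) - To (1, 0, 0) x.2 = _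
    simp [To_apply]

lemma R_a_pow (n : ℕ) (c : F) (v : V F) :
    ((R F (a : Ep F)) ^ (n + 1)) ((((0 : F), (0 : F), c), v) : (F × F × F) × V F) =
      (((0 : F × F × F), (-1 : F) ^ (n + 1) • (Xo ^ (n + 1)) v) : (F × F × F) × V F) := by
  induction n with
  | zero =>
    rw [zero_add, pow_one, R_a]
    refine ext' ?_ ?_
    · change ((0 : F), (0 : F), -(0 : F)) = 0
      simp
    · change - Xo v = (-1 : F) ^ 1 • (Xo ^ 1) v
      rw [pow_one, pow_one]
      exact ((neg_smul (1 : F) (Xo v)).trans (congrArg Neg.neg (one_smul F (Xo v)))).symm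
  | succ n ih =>
    rw [pow_succ', Module.End.mul_apply, ih, R_a]
    refine ext' ?_ ?_
    · change ((0 : F), (0 : F), -(0 : F)) = 0
      simp
    · change - Xo ((-1 : F) ^ (n + 1) • (Xo ^ (n + 1)) v) =
        (-1 : F) ^ (n + 1 + 1) • (Xo ^ (n + 1 + 1)) v
      rw [map_smul, pow_succ' Xo (n + 1), Module.End.mul_apply, pow_succ (-1 : F) (n + 1),
        mul_neg_one]
      exact (neg_smul _ _).symm

lemma Xo_pow (n : ℕ) (v : V F) (i j : ℕ) :
    ((Xo ^ n) v).1 i j = (((j + 1).ascFactorial n : ℕ) : F) * v.1 i (j + n) := by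
  induction n generalizing v with
  | zero => simp
  | succ n ih =>
    rw [pow_succ, Module.End.mul_apply, ih]
    change _ * (((j + n + 1 : ℕ) : F) * v.1 i (j + n + 1)) = _
    rw [Nat.ascFactorial_succ, Nat.cast_mul, ← add_assoc]
    have : j + 1 + n = j + n + 1 := by omega
    rw [this]
    ring

lemma isNilpotent_a (p : ℕ) [Fact p.Prime] [CharP F p] : (R F (a : Ep F)) ^ p = 0 := by
  have hp := (Fact.out : p.Prime)
  have hX : (Xo : V F →ₗ[F] V F) ^ p = 0 := by
    refine LinearMap.ext fun v => Subtype.ext ?_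
    funext i j
    rw [Xo_pow]
    have h1 : p ∣ (j + 1).ascFactorial p :=
      ((Nat.dvd_factorial hp.pos le_rfl).trans (Nat.factorial_dvd_ascFactorial _ _))
    rw [(CharP.cast_eq_zero_iff F p _).2 h1, zero_mul]
    rfl
  obtain ⟨n, hn⟩ : ∃ n, p = n + 2 := ⟨p - 2, by have := hp.two_le; omega⟩
  refine LinearMap.ext fun x => ?_
  rw [hn, pow_succ, Module.End.mul_apply, R_a, R_a_pow]
  refine ext' rfl ?_
  change (-1 : F) ^ (n + 1) • (Xo ^ (n + 1)) (- Xo x.2) = 0
  have h2 : (Xo ^ (n + 1)) (Xo x.2) = 0 := by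
    rw [← Module.End.mul_apply, ← pow_succ, ← hn, hX]
    rfl
  rw [map_neg, h2, neg_zero, smul_zero]

end Ep

end Pool.Agent.Y82.EL
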